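import Pool.Agent.Y122.TQ.Defs

set_option autoImplicit false

/-!
Project TQ: the truncated power against the square of the polynomial, for a finite family (ABS).
Adapted from `Pool.Agent.Y746.OA.Core` and `Pool.Agent.Y746.OA.Num` (helper746).
-/

namespace Pool.Agent.Y297.TQ

open Finset
open Pool.Agent.Y746.OA hiding Rt Rt_nonneg Rt_lt ptw core
open Pool.Agent.Y122.TQ (S_ABS)

noncomputable section

variable {ι : Type}

/-- the cost of exceptional points -/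
def Rt (D : ℝ → ι → ℝ) (z : ι → ℝ) (E : Finset ℝ) (W e : ℝ) (i : ι) : ℝ :=
  (∑ a ∈ E, ∑ b ∈ E, (D (a + b) i - D a i * D b i) ^ 2 / e ^ 2) +
    (∑ a ∈ E, D a i ^ 2 / W ^ 2) + (z i - D 1 i) ^ 2 / e ^ 2

lemma Rt_nonneg (D : ℝ → ι → ℝ) (z : ι → ℝ) (E : Finset ℝ) (W e : ℝ) (i : ι) :
    0 ≤ Rt D z E W e i := by
  unfold Rt
  have h1 : 0 ≤ ∑ a ∈ E, ∑ b ∈ E, (D (a + b) i - D a i * D b i) ^ 2 / e ^ 2 :=
    sum_nonneg fun _ _ => sum_nonneg fun _ _ => by positivity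
  have h2 : 0 ≤ ∑ a ∈ E, D a i ^ 2 / W ^ 2 := sum_nonneg fun _ _ => by positivity
  exact add_nonneg (add_nonneg h1 h2) (div_nonneg (sq_nonneg _) (sq_nonneg _))

lemma Rt_lt {D : ℝ → ι → ℝ} {z : ι → ℝ} {E : Finset ℝ} {W e : ℝ} {i : ι} (hW : 0 < W)
    (he : 0 < e) (h : Rt D z E W e i < 1) :
    (∀ a ∈ E, ∀ b ∈ E, |D (a + b) i - D a i * D b i| ≤ e) ∧
    (∀ a ∈ E, |D a i| ≤ W) ∧ |z i - D 1 i| ≤ e := by
  have h1 : 0 ≤ ∑ a ∈ E, ∑ b ∈ E, (D (a + b) i - D a i * D b i) ^ 2 / e ^ 2 :=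
    sum_nonneg fun _ _ => sum_nonneg fun _ _ => by positivity
  have h2 : 0 ≤ ∑ a ∈ E, D a i ^ 2 / W ^ 2 := sum_nonneg fun _ _ => by positivity
  have h3 : 0 ≤ (z i - D 1 i) ^ 2 / e ^ 2 := by positivity
  have key : ∀ x y : ℝ, 0 < y → x ^ 2 / y ^ 2 ≤ 1 → |x| ≤ y := by
    intro x y hy h
    rw [div_le_one (by positivity)] at h
    exact abs_le_of_sq_le_sq h hy.le
  unfold Rt at h
  refine ⟨fun a ha b hb => key _ _ he ?_, fun a ha => key _ _ hW ?_, key _ _ he ?_⟩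
  · have h4 : (D (a + b) i - D a i * D b i) ^ 2 / e ^ 2 ≤
        ∑ b ∈ E, (D (a + b) i - D a i * D b i) ^ 2 / e ^ 2 :=
      single_le_sum (f := fun b => (D (a + b) i - D a i * D b i) ^ 2 / e ^ 2)
        (fun _ _ => by positivity) hb
    have h5 : ∑ b ∈ E, (D (a + b) i - D a i * D b i) ^ 2 / e ^ 2 ≤
        ∑ a ∈ E, ∑ b ∈ E, (D (a + b) i - D a i * D b i) ^ 2 / e ^ 2 :=
      single_le_sum (f := fun a => ∑ b ∈ E, (D (a + b) i - D a i * D b i) ^ 2 / e ^ 2)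
        (fun _ _ => sum_nonneg fun _ _ => by positivity) ha
    linarith
  · have h4 : D a i ^ 2 / W ^ 2 ≤ ∑ a ∈ E, D a i ^ 2 / W ^ 2 :=
      single_le_sum (f := fun a => D a i ^ 2 / W ^ 2) (fun _ _ => by positivity) ha
    linarith
  · linarith

/-- pointwise inequality -/
lemma ptw {D : ℝ → ι → ℝ} {z : ι → ℝ} {i : ι} (hD0 : D 0 i = 1) {α b : ℝ} (hαb : |α| + 1 ≤ b)
    {J : ℕ} {V W e Y : ℝ} (hV : 1 ≤ V) (hW : 1 ≤ W)
    (he : 0 < e) (hWe : 8 * W ^ 2 * e ≤ 1) (hY : 0 < Y) (hρ : rho b W e J ≤ 1 / 4) :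
    |clip V |z i| ^ (2 * α) - D α i ^ 2| ≤
      4 * rho b W e J * D α i ^ 2 +
      8 * (V ^ 2)⁻¹ * (D b i ^ 2 + D (-b) i ^ 2) +
      (V ^ |2 * α| + Y) * Rt D z (Ex b α J) W e i + D α i ^ 4 / Y := by
  have hR := Rt_nonneg D z (Ex b α J) W e i
  have hb1 : 1 ≤ b := by have := abs_nonneg α; linarith
  have hρ0 : 0 ≤ rho b W e J := by
    unfold rho
    have : 0 ≤ Real.log (2 * W) := Real.log_nonneg (by linarith)
    positivity
  have hVp : 0 < V ^ |2 * α| := by positivity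
  have p1 : 0 ≤ 4 * rho b W e J * D α i ^ 2 := by positivity
  have p2 : 0 ≤ 8 * (V ^ 2)⁻¹ * (D b i ^ 2 + D (-b) i ^ 2) := by positivity
  have p3 : 0 ≤ D α i ^ 4 / Y := by positivity
  have p4 : 0 ≤ (V ^ |2 * α| + Y) * Rt D z (Ex b α J) W e i := by positivity
  rcases lt_or_ge (Rt D z (Ex b α J) W e i) 1 with hc | hc
  · obtain ⟨g1, g2, g3⟩ := Rt_lt (by linarith) he hc
    have hG : Good (fun y => ((D y i : ℝ) : ℂ)) (Ex b α J) W e :=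
      { z0 := by simp [hD0], W1 := hW, e0 := he.le, small := hWe, zero := S1_sub (S1_zero b α J),
        neg := fun a ha => Ex_neg ha,
        mul := fun a ha b hb => by
          rw [← Complex.ofReal_mul, ← Complex.ofReal_sub, Complex.norm_real, Real.norm_eq_abs]
          exact g1 a ha b hb
        bd := fun a ha => by
          rw [Complex.norm_real, Real.norm_eq_abs]
          exact g2 a ha }
    obtain ⟨m1, m2, m3, m4⟩ := hG.main hb1 (by linarith) (S1_sub (S1_b b α J)) J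
      (fun j hj => ⟨S1_sub (S1_iter hj), S1_two (S1_iter hj)⟩)
      (fun j hj => ⟨S1_sub (S1_iter1 hj), S1_two (S1_iter1 hj)⟩) (ζ := ((z i : ℝ) : ℂ)) (by
        rw [← Complex.ofReal_sub, Complex.norm_real, Real.norm_eq_abs]
        exact g3)
    have hαE : α ∈ Ex b α J := S1_sub (S1_iter (j := 0) (by omega))
    have hbE : b ∈ Ex b α J := S1_sub (S1_b b α J)
    have := good_ineq hV m1 (hG.pos hαE) (hG.pos hbE) (hG.pos (Ex_neg hbE)) hαb hρ0 hρ m2 m3 m4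
    simp only [Complex.norm_real, Real.norm_eq_abs, sq_abs] at this
    linarith
  · have h1 : clip V |z i| ^ (2 * α) ≤ V ^ |2 * α| := clip_pow_le hV _
    have h2 : 0 ≤ clip V |z i| ^ (2 * α) := Real.rpow_nonneg (clip_pos hV).le _
    have h3 : D α i ^ 2 ≤ Y + D α i ^ 4 / Y := by
      rcases le_or_gt (D α i ^ 2) Y with h | h
      · linarith
      · have : D α i ^ 2 ≤ D α i ^ 4 / Y := by
          rw [le_div_iff₀ hY]
          calc D α i ^ 2 * Y ≤ D α i ^ 2 * D α i ^ 2 := mul_le_mul_of_nonneg_left h.le (by positivity)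
            _ = D α i ^ 4 := by ring
        linarith
    have h4 : V ^ |2 * α| + Y ≤ (V ^ |2 * α| + Y) * Rt D z (Ex b α J) W e i :=
      le_mul_of_one_le_right (by positivity) hc
    have h5 : 0 ≤ D α i ^ 2 := by positivity
    rw [abs_le]
    constructor <;> linarith

/-- the summed inequality -/
theorem core (Ω : Finset ι) {D : ℝ → ι → ℝ} {z : ι → ℝ} (hD0 : ∀ i ∈ Ω, D 0 i = 1) {α b : ℝ}
    (hαb : |α| + 1 ≤ b) {J : ℕ} {V W e Y : ℝ} (hV : 1 ≤ V) (hW : 1 ≤ W)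
    (he : 0 < e) (hWe : 8 * W ^ 2 * e ≤ 1) (hY : 0 < Y) (hρ : rho b W e J ≤ 1 / 4) :
    |(∑ i ∈ Ω, clip V |z i| ^ (2 * α)) - (∑ i ∈ Ω, D α i ^ 2)| ≤
      4 * rho b W e J * (∑ i ∈ Ω, D α i ^ 2) +
      8 * (V ^ 2)⁻¹ * ((∑ i ∈ Ω, D b i ^ 2) + (∑ i ∈ Ω, D (-b) i ^ 2)) +
      (V ^ |2 * α| + Y) * ((∑ a ∈ Ex b α J, ∑ b' ∈ Ex b α J,
        (∑ i ∈ Ω, (D (a + b') i - D a i * D b' i) ^ 2) / e ^ 2) +
        (∑ a ∈ Ex b α J, (∑ i ∈ Ω, D a i ^ 2) / W ^ 2) + (∑ i ∈ Ω, (z i - D 1 i) ^ 2) / e ^ 2) +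
      (∑ i ∈ Ω, D α i ^ 4) / Y := by
  rw [← sum_sub_distrib]
  refine (abs_sum_le_sum_abs _ _).trans ?_
  refine (sum_le_sum fun i hi => ptw (hD0 i hi) hαb hV hW he hWe hY hρ).trans (le_of_eq ?_)
  rw [sum_add_distrib, sum_add_distrib, sum_add_distrib, ← mul_sum, ← mul_sum, ← mul_sum,
    ← sum_div, sum_add_distrib]
  congr 3
  unfold Rt
  rw [sum_add_distrib, sum_add_distrib, ← sum_div]
  congr 2
  · rw [sum_comm]
    refine sum_congr rfl fun a _ => ?_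
    rw [sum_comm]
    exact sum_congr rfl fun b _ => (sum_div _ _ _).symm
  · rw [sum_comm]
    exact sum_congr rfl fun b _ => (sum_div _ _ _).symm

theorem ABS : S_ABS := by
  intro ι Ω D z α b T L H X V C1 S B hαb hT hS hL hH hX8 hC1 hV1 hXL hVL hVX hρ1 hD0 hG hI hI4 hM hZ
    hbig
  have hL0 : 0 < L := by linarith
  have hX0 : 0 < X := by linarith
  have hX1 : 1 ≤ X := by linarith
  have hb1 : 1 ≤ b := by have := abs_nonneg α; linarith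
  set q := L ^ (B + 1) with hq
  have hq1 : 1 ≤ q := one_le_pow₀ (by linarith)
  have hq0 : 0 < q := by linarith
  have hqL : L ≤ q := by
    calc L = L ^ 1 := (pow_one L).symm
      _ ≤ q := pow_le_pow_right₀ (by linarith) (by omega)
  set ρ := rho b X ((X ^ 3)⁻¹) ⌈L⌉₊ with hρ
  have hρ0 : 0 ≤ ρ := by
    rw [hρ]; unfold rho
    have : 0 ≤ Real.log (2 * X) := Real.log_nonneg (by linarith)
    positivity
  have hρ4 : ρ ≤ 1 / 4 := by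
    refine hρ1.trans ?_
    rw [div_le_div_iff₀ hq0 (by norm_num)]
    nlinarith
  have hWe : 8 * X ^ 2 * (X ^ 3)⁻¹ ≤ 1 := by
    have : 8 * X ^ 2 * (X ^ 3)⁻¹ = 8 / X := by field_simp
    rw [this, div_le_one hX0]; exact hX8
  have hcore := core Ω (z := z) hD0 hαb (J := ⌈L⌉₊) (V := V) (W := X) (e := (X ^ 3)⁻¹) (Y := X)
    hV1 hX1 (by positivity) hWe hX0 hρ4
  rw [← hρ] at hcore
  -- sizes
  have hHX : H / X ≤ 1 / q := by
    rw [div_le_div_iff₀ hX0 hq0, one_mul]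
    refine le_trans ?_ hXL
    refine mul_le_mul_of_nonneg_left ?_ (by linarith)
    exact pow_le_pow_right₀ (by linarith) (by omega)
  have hHLX : H * L ^ 2 / X ≤ 1 / q := by
    rw [div_le_div_iff₀ hX0 hq0, one_mul]
    refine le_trans (le_of_eq ?_) hXL
    rw [hq]; ring
  have hLX : L / X ≤ 1 / q := by
    refine le_trans ?_ hHLX
    refine div_le_div_of_nonneg_right ?_ hX0.le
    nlinarith
  have hHV : H * (V ^ 2)⁻¹ ≤ 1 / q := by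
    have hV0 : 0 < V := by linarith
    rw [← div_eq_mul_inv, div_le_div_iff₀ (by positivity) hq0, one_mul]
    exact hVL.trans (by nlinarith)
  have hX16 : (X ^ 16)⁻¹ ≤ X⁻¹ := inv_anti₀ hX0 (by
    calc X = X ^ 1 := (pow_one X).symm
      _ ≤ X ^ 16 := pow_le_pow_right₀ hX1 (by norm_num))
  have hHX16 : H * (X ^ 16)⁻¹ ≤ 1 / q := by
    refine le_trans ?_ hHX
    rw [div_eq_mul_inv]
    exact mul_le_mul_of_nonneg_left hX16 (by linarith)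
  obtain ⟨m1, m2⟩ := abs_le.mp hM
  have hIα : (∑ i ∈ Ω, D α i ^ 2) ≤ T * (S + 2 * (1 / q)) := by
    have : T * (2 * H * (X ^ 16)⁻¹) ≤ T * (2 * (1 / q)) := by
      refine mul_le_mul_of_nonneg_left ?_ hT.le
      linarith
    linarith
  -- term 1
  have t1 : 4 * ρ * (∑ i ∈ Ω, D α i ^ 2) ≤ T * S * (112 * (b + 1) / q) + T * (2 * (1 / q)) := by
    have a1 : 4 * ρ * (∑ i ∈ Ω, D α i ^ 2) ≤ 4 * ρ * (T * (S + 2 * (1 / q))) := mul_le_mul_of_nonneg_left hIα (by positivity)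
    have a2 : 4 * ρ * (T * S) ≤ (112 * (b + 1) / q) * (T * S) := by
      refine mul_le_mul_of_nonneg_right ?_ (by positivity)
      calc 4 * ρ ≤ 4 * (28 * (b + 1) / q) := by linarith
        _ = _ := by ring
    have a3 : 4 * ρ * (T * (2 * (1 / q))) ≤ 1 * (T * (2 * (1 / q))) :=
      mul_le_mul_of_nonneg_right (by linarith) (by positivity)
    nlinarith
  -- term 2
  have hIb : (∑ i ∈ Ω, D b i ^ 2) ≤ T * (2 * H) := hI b (by rw [abs_of_pos (by linarith)]; linarith)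
  have hIb' : (∑ i ∈ Ω, D (-b) i ^ 2) ≤ T * (2 * H) := hI (-b) (by rw [abs_neg, abs_of_pos (by linarith)]; linarith)
  have t2 : 8 * (V ^ 2)⁻¹ * ((∑ i ∈ Ω, D b i ^ 2) + (∑ i ∈ Ω, D (-b) i ^ 2)) ≤ T * (32 * (1 / q)) := by
    have hVi : 0 ≤ (V ^ 2)⁻¹ := by positivity
    calc 8 * (V ^ 2)⁻¹ * ((∑ i ∈ Ω, D b i ^ 2) + (∑ i ∈ Ω, D (-b) i ^ 2)) ≤ 8 * (V ^ 2)⁻¹ * (T * (2 * H) + T * (2 * H)) := by
          refine mul_le_mul_of_nonneg_left (by linarith) (by positivity)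
      _ = T * (32 * (H * (V ^ 2)⁻¹)) := by ring
      _ ≤ _ := by
        refine mul_le_mul_of_nonneg_left ?_ hT.le
        linarith
  -- term 3
  set E := Ex b α ⌈L⌉₊ with hE
  have hcard : (#E : ℝ) ≤ 9 * L := by
    have h1 := Ex_card b α ⌈L⌉₊
    have h2 : (#E : ℝ) ≤ 8 * (⌈L⌉₊ : ℝ) + 16 := by exact_mod_cast h1
    have h3 := Nat.ceil_lt_add_one hL0.le
    linarith
  have hcard0 : (0:ℝ) ≤ #E := Nat.cast_nonneg _
  have hEbd : ∀ a ∈ E, |a| ≤ 2 * b := fun a ha => Ex_bd hb1 (by linarith) ha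
  have s1 : ∑ a ∈ E, ∑ b' ∈ E, (∑ i ∈ Ω, (D (a + b') i - D a i * D b' i) ^ 2) / ((X ^ 3)⁻¹) ^ 2 ≤ T * (162 * (H * L ^ 2) * (X ^ 10)⁻¹) := by
    have h1 : ∀ a ∈ E, ∑ b' ∈ E, (∑ i ∈ Ω, (D (a + b') i - D a i * D b' i) ^ 2) / ((X ^ 3)⁻¹) ^ 2 ≤ (#E : ℝ) * (T * (2 * H * (X ^ 10)⁻¹)) := by
      intro a ha
      have h2 : ∀ b' ∈ E, (∑ i ∈ Ω, (D (a + b') i - D a i * D b' i) ^ 2) / ((X ^ 3)⁻¹) ^ 2 ≤ T * (2 * H * (X ^ 10)⁻¹) := by
        intro b' hb'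
        have h3 := hG a b' (hEbd a ha) (hEbd b' hb')
        rw [div_le_iff₀ (by positivity)]
        refine h3.trans (le_of_eq ?_)
        field_simp
      refine (sum_le_card_nsmul _ _ _ h2).trans (le_of_eq ?_)
      rw [nsmul_eq_mul]
    refine (sum_le_card_nsmul _ _ _ h1).trans ?_
    rw [nsmul_eq_mul]
    have hn2 : (#E : ℝ) * #E ≤ 81 * L ^ 2 := by nlinarith
    calc (#E : ℝ) * ((#E : ℝ) * (T * (2 * H * (X ^ 10)⁻¹))) = ((#E : ℝ) * #E) * (T * (2 * H * (X ^ 10)⁻¹)) := by ring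
      _ ≤ (81 * L ^ 2) * (T * (2 * H * (X ^ 10)⁻¹)) := mul_le_mul_of_nonneg_right hn2 (by positivity)
      _ = _ := by ring
  have s2 : ∑ a ∈ E, (∑ i ∈ Ω, D a i ^ 2) / X ^ 2 ≤ T * (18 * (H * L ^ 2) * (X ^ 2)⁻¹) := by
    have h1 : ∀ a ∈ E, (∑ i ∈ Ω, D a i ^ 2) / X ^ 2 ≤ T * (2 * H * (X ^ 2)⁻¹) := by
      intro a ha
      rw [div_eq_mul_inv]
      calc (∑ i ∈ Ω, D a i ^ 2) * (X ^ 2)⁻¹ ≤ (T * (2 * H)) * (X ^ 2)⁻¹ :=
            mul_le_mul_of_nonneg_right (hI a (hEbd a ha)) (by positivity)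
        _ = _ := by ring
    refine (sum_le_card_nsmul _ _ _ h1).trans ?_
    rw [nsmul_eq_mul]
    have hn2 : (#E : ℝ) ≤ 9 * L ^ 2 := by nlinarith
    calc (#E : ℝ) * (T * (2 * H * (X ^ 2)⁻¹)) ≤ (9 * L ^ 2) * (T * (2 * H * (X ^ 2)⁻¹)) :=
          mul_le_mul_of_nonneg_right hn2 (by positivity)
      _ = _ := by ring
  have s3 : (∑ i ∈ Ω, (z i - D 1 i) ^ 2) / ((X ^ 3)⁻¹) ^ 2 ≤ T * (C1 * (H * L ^ 2) * (X ^ 10)⁻¹) := by
    rw [div_le_iff₀ (by positivity)]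
    have hLH : L ≤ H * L ^ 2 := by nlinarith
    calc (∑ i ∈ Ω, (z i - D 1 i) ^ 2) ≤ T * (C1 * L * (X ^ 16)⁻¹) := hZ
      _ ≤ T * (C1 * (H * L ^ 2) * (X ^ 16)⁻¹) := by gcongr
      _ = _ := by field_simp
  have hX10 : (X ^ 10)⁻¹ ≤ (X ^ 2)⁻¹ := inv_anti₀ (by positivity) (pow_le_pow_right₀ hX1 (by norm_num))
  have hHL0 : 0 ≤ H * L ^ 2 := by positivity
  have s4 : (∑ a ∈ E, ∑ b' ∈ E, (∑ i ∈ Ω, (D (a + b') i - D a i * D b' i) ^ 2) / ((X ^ 3)⁻¹) ^ 2) + (∑ a ∈ E, (∑ i ∈ Ω, D a i ^ 2) / X ^ 2) +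
      (∑ i ∈ Ω, (z i - D 1 i) ^ 2) / ((X ^ 3)⁻¹) ^ 2 ≤ T * ((180 + C1) * (H * L ^ 2) * (X ^ 2)⁻¹) := by
    have b1 : T * (162 * (H * L ^ 2) * (X ^ 10)⁻¹) ≤ T * (162 * (H * L ^ 2) * (X ^ 2)⁻¹) := by gcongr
    have b2 : T * (C1 * (H * L ^ 2) * (X ^ 10)⁻¹) ≤ T * (C1 * (H * L ^ 2) * (X ^ 2)⁻¹) := by gcongr
    calc _ ≤ T * (162 * (H * L ^ 2) * (X ^ 2)⁻¹) + T * (18 * (H * L ^ 2) * (X ^ 2)⁻¹) +
        T * (C1 * (H * L ^ 2) * (X ^ 2)⁻¹) := add_le_add (add_le_add (s1.trans b1) s2) (s3.trans b2)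
      _ = _ := by ring
  have t3 : (V ^ |2 * α| + X) * ((∑ a ∈ E, ∑ b' ∈ E, (∑ i ∈ Ω, (D (a + b') i - D a i * D b' i) ^ 2) / ((X ^ 3)⁻¹) ^ 2) +
      (∑ a ∈ E, (∑ i ∈ Ω, D a i ^ 2) / X ^ 2) + (∑ i ∈ Ω, (z i - D 1 i) ^ 2) / ((X ^ 3)⁻¹) ^ 2) ≤ T * ((360 + 2 * C1) * (1 / q)) := by
    calc _ ≤ (V ^ |2 * α| + X) * (T * ((180 + C1) * (H * L ^ 2) * (X ^ 2)⁻¹)) :=
          mul_le_mul_of_nonneg_left s4 (by positivity)
      _ ≤ (X + X) * (T * ((180 + C1) * (H * L ^ 2) * (X ^ 2)⁻¹)) := by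
          refine mul_le_mul_of_nonneg_right (by linarith) (by positivity)
      _ = T * ((360 + 2 * C1) * (H * L ^ 2 / X)) := by field_simp; ring
      _ ≤ _ := by gcongr
  -- term 4
  have t4 : (∑ i ∈ Ω, D α i ^ 4) / X ≤ T * (2 * (1 / q)) := by
    rw [div_le_iff₀ hX0]
    refine hI4.trans ?_
    rw [div_le_iff₀ hX0] at hHX
    calc T * (2 * H) ≤ T * (2 * (1 / q * X)) := by gcongr
      _ = _ := by ring
  have t5 : |(∑ i ∈ Ω, D α i ^ 2) - T * S| ≤ T * (2 * (1 / q)) := by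
    refine hM.trans (mul_le_mul_of_nonneg_left (by linarith) hT.le)
  have hsum : |(∑ i ∈ Ω, clip V |z i| ^ (2 * α)) - T * S| ≤
      T * S * (112 * (b + 1) / q) + T * ((38 + (360 + 2 * C1)) * (1 / q)) := by
    have h1 := abs_sub_le (∑ i ∈ Ω, clip V |z i| ^ (2 * α)) ((∑ i ∈ Ω, D α i ^ 2)) (T * S)
    refine h1.trans ?_
    have h2 := hcore.trans (add_le_add (add_le_add (add_le_add t1 t2) t3) t4)
    linarith
  refine hsum.trans ?_
  have h8 : (112 * (b + 1) + 38 + (360 + 2 * C1)) / q ≤ 1 / L ^ B := by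
    rw [div_le_div_iff₀ hq0 (by positivity), one_mul, hq, pow_succ, mul_comm]
    exact mul_le_mul_of_nonneg_left hbig (by positivity)
  have h9 : 0 ≤ T * (112 * (b + 1) / q) := by positivity
  have h10 : 0 ≤ T * S * ((38 + (360 + 2 * C1)) * (1 / q)) := by positivity
  calc _ ≤ T * (S + 1) * ((112 * (b + 1) + 38 + (360 + 2 * C1)) / q) := by
        have e1 : T * (S + 1) * ((112 * (b + 1) + 38 + (360 + 2 * C1)) / q) =
          T * S * (112 * (b + 1) / q) + T * ((38 + (360 + 2 * C1)) * (1 / q)) +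
          T * (112 * (b + 1) / q) + T * S * ((38 + (360 + 2 * C1)) * (1 / q)) := by ring
        linarith
    _ ≤ T * (S + 1) * (1 / L ^ B) := mul_le_mul_of_nonneg_left h8 (by positivity)
    _ = _ := by ring

end

end Pool.Agent.Y297.TQ
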